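import Pool.Agent.Helper97.BE.GeoTr
import Pool.Agent.Helper10.TQ.Defs

/-!
# Project TQ, GEO: transport from the explicit field to `S`
-/

universe u v

namespace Pool.Agent.TQ

open MvPolynomial Pool.Agent.BT

/-- GEO over the explicit field implies GEO, for two quadrics. -/
theorem geoQ_of_geo1Q
    (H1 : ∀ (κ E : Type u) [Field κ] [IsAlgClosed κ] [CharZero κ] [Field E] [Algebra κ E]
      (φE : E →+* HahnSeries ℤ κ) (_ : ∀ c : κ, φE (algebraMap κ E c) = HahnSeries.C c) (T : E)
      (_ : φE T = HahnSeries.single 1 1) (N m t : ℕ) (ht : t ≤ N) (ds : Fin t → ℕ) (s₀ : Fin t)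
      (_ : ds s₀ = 2) (U : Type) [Fintype U] (e : U → ℕ)
      (w : Fin (m + 2) → E) (_ : w 0 = 1) (_ : w 1 = T)
      (h : ∀ u, MonV (N + 2) (e u) → E) (c : ℕ) (_ : 1 ≤ c) (_ : CertV ht h c),
      Geo1Q κ E T N m ds w h)
    {S : Type u} [Field S] [IsAlgClosed S] [CharZero S] {κ E K0 : Subfield S}
    (hκ : ∀ y : S, IsAlgebraic κ y → y ∈ κ) {T q : S} (hT : Transcendental κ T)
    (hq : TH.SplitAt κ T q) (hE : E = Subfield.closure ((κ : Set S) ∪ {T, q}))
    {N t : ℕ} (ht : t ≤ N) {ds : Fin t → ℕ} {s₀ : Fin t} (hs₀ : ds s₀ = 2) {m : ℕ}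
    {x : IxV (N + 2) 2 ds × Fin (m + 2) → S} (hx : AlgebraicIndependent E x)
    (hK0 : K0 = Subfield.closure ((E : Set S) ∪ Set.range x))
    {w : Fin (m + 2) → S} (hw : ∀ e, w e ∈ E) (hw0 : w 0 = 1) (hw1 : w 1 = T)
    {U : Type} [Fintype U] {e : U → ℕ} {h : ∀ u, MonV (N + 2) (e u) → E} {c : ℕ} (hc : 1 ≤ c)
    (hcert : CertV ht h c) :
    GeoQ κ K0 T x w (fun u q => (h u q : S)) := by
  classical
  -- membership
  have hκE : κ ≤ E := by
    intro y hy
    rw [hE]
    exact Subfield.subset_closure (Or.inl hy)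
  have hTE : T ∈ E := by
    rw [hE]
    exact Subfield.subset_closure (Or.inr (Or.inl rfl))
  -- instances
  have iκ : IsAlgClosed κ := by
    refine IsAlgClosed.of_exists_root _ fun P hPm hPi => ?_
    have h2 : (P.map κ.subtype).degree ≠ 0 := by
      rw [Polynomial.degree_map]
      exact (Polynomial.degree_pos_of_irreducible hPi).ne'
    obtain ⟨y, hy⟩ := IsAlgClosed.exists_root (P.map κ.subtype) h2
    have h3 : IsAlgebraic κ y := ⟨P, hPm.ne_zero, by
      rw [Polynomial.IsRoot, Polynomial.eval_map] at hy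
      exact hy⟩
    refine ⟨⟨y, hκ y h3⟩, ?_⟩
    apply κ.subtype.injective
    rw [← Polynomial.eval₂_at_apply, map_zero]
    rw [Polynomial.IsRoot, Polynomial.eval_map] at hy
    exact hy
  have iκ0 : CharZero κ := inferInstance
  let iκE : Algebra κ E := (Subfield.inclusion hκE).toAlgebra
  obtain ⟨φ, hφc, hφT⟩ := PC.exists_embed hT hq hE
  have hG1 := H1 κ E φ (fun c => hφc c (hκE c.2)) ⟨T, hTE⟩ (hφT hTE) N m t ht ds s₀ hs₀ U e
    (fun e => ⟨w e, hw e⟩) (Subtype.ext hw0) (Subtype.ext hw1) h c hc hcert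
  obtain ⟨S₁, iF1, iA1, n, M, G, W, W₂, H, H₂, H', H₂', D, D', D'', cc, τ₁, ρ₁, Q, hnM, hM1, iac, hid,
    hid₂, hfin, hcop, hcop₂, hcc, hτF, hQκ, hQx, hQ, hτG, hτW, hτα, hρF, hρ1, hρ2, hρ3⟩ := hG1
  set F := FFV E (N + 2) 2 m ds with hFdef
  -- `F → S`
  have hxinj : Function.Injective
      (aeval x : MvPolynomial (IxV (N + 2) 2 ds × Fin (m + 2)) E →ₐ[E] S) := hx
  let iAS : Algebra F S :=
    (IsFractionRing.lift (A := MvPolynomial (IxV (N + 2) 2 ds × Fin (m + 2)) E)
      (g := (aeval x : MvPolynomial (IxV (N + 2) 2 ds × Fin (m + 2)) E →ₐ[E] S).toRingHom)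
        hxinj).toAlgebra
  have hmap : ∀ P : MvPolynomial (IxV (N + 2) 2 ds × Fin (m + 2)) E,
      algebraMap F S (algebraMap (MvPolynomial (IxV (N + 2) 2 ds × Fin (m + 2)) E) F P) =
        aeval x P :=
    fun P => IsFractionRing.lift_algebraMap hxinj P
  have hmC : ∀ y : E, algebraMap F S (cF (N + 2) 2 m ds y) = y := fun y => by
    have h1 := hmap (C y)
    rw [aeval_C] at h1
    exact h1
  have hmX : ∀ i, algebraMap F S (xF i) = x i := fun i => by
    have h1 := hmap (X i)
    rw [aeval_X] at h1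
    exact h1
  have hmf : ∀ a, algebraMap F S (fF (fun e => (⟨w e, hw e⟩ : E)) a) = mainV x w a := by
    intro a
    rw [fF, mainV, map_sum, mainV]
    refine Finset.sum_congr rfl fun e _ => ?_
    rw [map_mul, hmX, hmC]
  have hmr : (fun u a => algebraMap F S (relF (fun e => (⟨w e, hw e⟩ : E)) h u a)) =
      relS (othV x w) (fun u q => (h u q : S)) := by
    funext u
    cases u with
    | inl s =>
      funext a
      change algebraMap F S (othV xF (fun e => cF (N + 2) 2 m ds (⟨w e, hw e⟩ : E)) s a) =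
        othV x w s a
      simp only [othV, map_sum, map_mul, hmX, hmC]
    | inr u =>
      funext a
      exact hmC _
  -- `K0` is the image
  have hK1 : ∀ y ∈ K0, ∃ f : F, algebraMap F S f = y := by
    have h1 : K0 ≤ (algebraMap F S).fieldRange := by
      rw [hK0, Subfield.closure_le]
      rintro y (hy | ⟨i, rfl⟩)
      · exact ⟨_, hmC ⟨y, hy⟩⟩
      · exact ⟨_, hmX i⟩
    intro y hy
    exact h1 hy
  have hK2 : ∀ f : F, algebraMap F S f ∈ K0 := by
    have h1 : ∀ P : MvPolynomial (IxV (N + 2) 2 ds × Fin (m + 2)) E, aeval x P ∈ K0 := by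
      intro P
      induction P using MvPolynomial.induction_on with
      | C y =>
        rw [aeval_C, hK0]
        exact Subfield.subset_closure (Or.inl y.2)
      | add P1 P2 h1 h2 =>
        rw [map_add]
        exact add_mem h1 h2
      | mul_X P i h =>
        rw [map_mul, aeval_X]
        refine mul_mem h ?_
        rw [hK0]
        exact Subfield.subset_closure (Or.inr ⟨i, rfl⟩)
    intro f
    obtain ⟨P, R, hR, rfl⟩ := IsFractionRing.div_surjective
      (A := MvPolynomial (IxV (N + 2) 2 ds × Fin (m + 2)) E) f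
    rw [map_div₀, hmap, hmap]
    exact div_mem (h1 _) (h1 _)
  have hK3 : ∀ y : S, IsAlgebraic F y → IsAlgebraic K0 y := by
    rintro y ⟨P, hP0, hP⟩
    let j : F →+* K0 := (algebraMap F S).codRestrict K0 hK2
    refine ⟨P.map j, (Polynomial.map_ne_zero_iff j.injective).2 hP0, ?_⟩
    rw [Polynomial.aeval_def, Polynomial.eval₂_map]
    exact hP
  have hK4 : ∀ y : S, IsAlgebraic K0 y → IsAlgebraic F y := by
    rintro y ⟨P, hP0, hP⟩
    have h1 : ∀ z : K0, ∃ f : F, algebraMap F S f = z := fun z => hK1 z z.2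
    have h2 : P.map K0.subtype ∈ Polynomial.lifts (algebraMap F S) := by
      rw [Polynomial.lifts_iff_coeff_lifts]
      intro n
      rw [Polynomial.coeff_map]
      exact h1 _
    obtain ⟨P', hP'⟩ := (Polynomial.mem_lifts _).1 h2
    refine ⟨P', ?_, ?_⟩
    · rintro rfl
      rw [Polynomial.map_zero] at hP'
      exact hP0 ((Polynomial.map_eq_zero_iff K0.subtype.injective).1 hP'.symm)
    · rw [Polynomial.aeval_def, ← Polynomial.eval_map, hP', Polynomial.eval_map]
      exact hP
  -- transport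
  obtain ⟨e', he⟩ := PC.exists_transport (F := F) (S := S) (S₁ := S₁)
  let hh0 : algebraicClosure F S₁ →+* S :=
    (algebraMap (algebraicClosure F S) S).comp (e' : _ →+* _)
  have hh : ∀ z, hh0 z = (e' z : S) := fun _ => rfl
  have hhF : ∀ f : F, hh0 (algebraMap F (algebraicClosure F S₁) f) = algebraMap F S f := by
    intro f
    rw [hh, e'.commutes]
    rfl
  have hhalg : ∀ z, IsAlgebraic K0 (hh0 z) := fun z =>
    hK3 _ (mem_algebraicClosure_iff.1 (e' z).2)
  have hsurj : ∀ y : S, IsAlgebraic K0 y → ∃ z, hh0 z = y := by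
    intro y hy
    refine ⟨e'.symm ⟨y, mem_algebraicClosure_iff.2 (hK4 y hy)⟩, ?_⟩
    rw [hh, e'.apply_symm_apply]
  have hstab : ∀ σ : S₁ ≃+* S₁, (∀ c : F, σ (algebraMap _ S₁ c) = algebraMap _ S₁ c) →
      ∀ z : algebraicClosure F S₁, ∃ z' : algebraicClosure F S₁, σ (z : S₁) = z' := by
    intro σ hσ z
    let σ' : S₁ ≃ₐ[F] S₁ := AlgEquiv.ofRingEquiv (f := σ) hσ
    refine ⟨⟨σ' z, ?_⟩, rfl⟩
    rw [mem_algebraicClosure_iff]
    exact (mem_algebraicClosure_iff.1 z.2).algHom (σ' : S₁ →ₐ[F] S₁)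
  have hmain : (fun a => hh0 (algebraMap F (algebraicClosure F S₁)
      (fF (fun e => (⟨w e, hw e⟩ : E)) a))) = mainV x w := by
    funext a
    rw [hhF, hmf]
  have hrels : (fun u a => hh0 (algebraMap F (algebraicClosure F S₁)
      (relF (fun e => (⟨w e, hw e⟩ : E)) h u a))) =
        relS (othV x w) (fun u q => (h u q : S)) := by
    rw [← hmr]
    funext u a
    exact hhF _
  obtain ⟨τ, hτ0, hτ1⟩ := he τ₁ hτF
  obtain ⟨ρ, hρ0, hρe⟩ := he ρ₁ hρF
  -- the identities
  refine ⟨n, M, fun i a => hh0 (G i a), fun a => hh0 (W a), fun a => hh0 (W₂ a), fun a => hh0 (H a),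
    fun a => hh0 (H₂ a), fun u a => hh0 (H' u a), fun u a => hh0 (H₂' u a), fun i a => hh0 (D i a),
    fun i a => hh0 (D' i a), fun i u a => hh0 (D'' i u a), fun i a => hh0 (cc i a), τ, ρ, hnM, hM1,
    fun i a => hhalg _, fun a => hhalg _, fun a => hhalg _, fun a => hhalg _, fun a => hhalg _,
    fun u a => hhalg _, fun u a => hhalg _, fun i a => hhalg _, fun i a => hhalg _,
    fun i u a => hhalg _, fun i a => hhalg _, ?_, ?_, ?_, ?_, ?_, ?_, ?_, ?_, ?_, ?_, ?_, ?_,
    fun a => hρe _ _ (hρ1 a), fun a => hρe _ _ (hρ2 a), ?_⟩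
  · have h1 := congrArg (map hh0) hid
    rw [map_mul, map_add, map_mul, map_pow, map_C, BT.map_pol, BT.map_pol, BT.map_pol, BT.map_comb,
      hhF, hmC, hmain, hrels] at h1
    exact h1
  · have h1 := congrArg (map hh0) hid₂
    rw [map_mul, map_add, map_pow, BT.map_pol, BT.map_pol, BT.map_pol, BT.map_comb, hmain,
      hrels] at h1
    exact h1
  · choose FA FB FH FH' hF using hfin
    refine ⟨fun q a => algebraMap F S (FA q a), fun q a => algebraMap F S (FB q a),
      fun q a => algebraMap F S (FH q a), fun q u a => algebraMap F S (FH' q u a),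
      fun q a => hK2 _, fun q a => hK2 _, fun q a => hK2 _, fun q u a => hK2 _, fun q => ?_⟩
    have h1 := congrArg (map (algebraMap F S)) (hF q)
    rw [map_add, map_add, map_mul, map_X, BT.map_pol, BT.map_pol, BT.map_comb, map_monomial, map_one,
      hmr] at h1
    have h2 : (fun a => algebraMap F S (fF (fun e => (⟨w e, hw e⟩ : E)) a)) = mainV x w := by
      funext a
      exact hmf a
    rw [h2] at h1
    exact h1
  · have h1 := tr_map_Cop hh0 hcop
    rw [hmain, hrels] at h1
    exact h1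
  · have h1 := tr_map_Cop hh0 hcop₂
    rw [hmain, hrels] at h1
    exact h1
  · intro i
    obtain ⟨h1, h2⟩ := hcc i
    refine ⟨?_, ?_⟩
    · intro h3
      apply h1
      funext a
      have h4 := congrFun h3 a
      exact (map_eq_zero hh0).1 h4
    · have h3 := congrArg (map hh0) h2
      rw [map_add, map_mul, BT.map_pol, BT.map_pol, BT.map_comb, tr_map_polX, hmain, hrels] at h3
      exact h3
  · intro y hy
    obtain ⟨f, rfl⟩ := hK1 y hy
    exact hτ0 f
  · -- elements algebraic over `κ(x)`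
    generalize hR0 : Subfield.closure ((κ : Set S) ∪ Set.range x) = R0
    rintro y ⟨P, hP0, hP⟩
    let QF : Subfield F := Q.comap (algebraMap F S₁)
    let g : QF →+* S := (algebraMap F S).comp QF.subtype
    have h1 : R0 ≤ g.fieldRange := by
      rw [← hR0, Subfield.closure_le]
      rintro y (hy | ⟨i, rfl⟩)
      · exact ⟨⟨_, hQκ ⟨y, hy⟩⟩, hmC _⟩
      · exact ⟨⟨_, hQx i⟩, hmX i⟩
    have h2 : P.map R0.subtype ∈ Polynomial.lifts g := by
      rw [Polynomial.lifts_iff_coeff_lifts]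
      intro n
      rw [Polynomial.coeff_map]
      exact h1 (P.coeff n).2
    obtain ⟨P', hP'⟩ := (Polynomial.mem_lifts _).1 h2
    have hP'0 : P' ≠ 0 := by
      rintro rfl
      rw [Polynomial.map_zero] at hP'
      exact hP0 ((Polynomial.map_eq_zero_iff R0.subtype.injective).1 hP'.symm)
    have hP'1 : P'.eval₂ g y = 0 := by
      rw [← Polynomial.eval_map, hP', Polynomial.eval_map]
      exact hP
    have hyF : IsAlgebraic F y := by
      refine ⟨P'.map QF.subtype, (Polynomial.map_ne_zero_iff QF.subtype.injective).2 hP'0, ?_⟩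
      rw [Polynomial.aeval_def, Polynomial.eval₂_map]
      exact hP'1
    obtain ⟨z, rfl⟩ := hsurj y (hK3 y hyF)
    have h3 : P'.eval₂ ((algebraMap F (algebraicClosure F S₁)).comp QF.subtype) z = 0 := by
      apply hh0.injective
      rw [Polynomial.hom_eval₂, map_zero]
      have h4 : hh0.comp ((algebraMap F (algebraicClosure F S₁)).comp QF.subtype) = g := by
        ext f
        exact hhF _
      rw [h4]
      exact hP'1
    have h5 : IsAlgebraic Q (z : S₁) := by
      let j : QF →+* Q := ((algebraMap F S₁).comp QF.subtype).codRestrict Q fun f => f.2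
      refine ⟨P'.map j, (Polynomial.map_ne_zero_iff j.injective).2 hP'0, ?_⟩
      rw [Polynomial.aeval_def, Polynomial.eval₂_map]
      have h6 := congrArg (algebraMap (algebraicClosure F S₁) S₁) h3
      rw [Polynomial.hom_eval₂, map_zero] at h6
      exact h6
    exact hτ1 z z (hQ _ h5)
  · intro i a
    exact hτ1 _ _ (hτG i a)
  · intro a
    exact hτ1 _ _ (hτW a)
  · intro α hα hτ'
    have h1 : IsAlgebraic K0 α := by
      have h2 : IsAlgebraic K0 T := by
        have h3 : T ∈ K0 := by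
          rw [hK0]
          exact Subfield.subset_closure (Or.inl hTE)
        exact isAlgebraic_algebraMap (A := S) (⟨T, h3⟩ : K0)
      rw [← hα] at h2
      exact h2.of_pow two_pos
    obtain ⟨z, rfl⟩ := hsurj α h1
    obtain ⟨z', hz'⟩ := hstab τ₁ hτF z
    have h2 : hh0 z ^ 2 = hh0 (algebraMap F (algebraicClosure F S₁)
        (cF (N + 2) 2 m ds ⟨T, hTE⟩)) := by
      rw [hα, hhF, hmC]
    rw [← map_pow] at h2
    have h3 := hh0.injective h2
    have h4 := congrArg (algebraMap (algebraicClosure F S₁) S₁) h3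
    rw [map_pow] at h4
    refine hτα (z : S₁) h4 ?_
    have h5 := hτ1 z z' hz'
    have h6 : (e' z : S) = e' z' := hτ'.symm.trans h5
    have h7 : z = z' := e'.injective (Subtype.ext h6)
    rw [hz', ← h7]
  · intro y hy
    obtain ⟨f, rfl⟩ := hK1 y hy
    exact hρ0 f
  · intro y hy
    obtain ⟨z, rfl⟩ := hsurj y hy
    obtain ⟨z1, hz1⟩ := hstab ρ₁ hρF z
    obtain ⟨z2, hz2⟩ := hstab τ₁ hτF z1
    obtain ⟨z3, hz3⟩ := hstab τ₁ hτF z
    obtain ⟨z4, hz4⟩ := hstab ρ₁ hρF z3
    have h1 : ρ (hh0 z) = hh0 z1 := hρe _ _ hz1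
    have h2 : τ (hh0 z1) = hh0 z2 := hτ1 _ _ hz2
    have h3 : τ (hh0 z) = hh0 z3 := hτ1 _ _ hz3
    have h4 : ρ (hh0 z3) = hh0 z4 := hρe _ _ hz4
    rw [h1, h2, h3, h4]
    congr 1
    apply Subtype.ext
    rw [← hz2, ← hz1, hρ3, hz3, hz4]

end Pool.Agent.TQ
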