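import Pool.Agent.Helper37.TQ.Geo1Q
import Pool.Agent.Helper97.TQ.GeoTr

/-!
# Project TQ: GEO
-/

universe u v

namespace Pool.Agent.TQ

open MvPolynomial Pool.Agent.BT

/-- **GEO for two quadrics.**  `κ` is algebraically closed in `S`, `T` is transcendental over
`κ`, `q` is unramified and split at `T = 0`, the `x i` are algebraically independent over `E = κ(T, q)`;
`h` are the fixed relations. -/
theorem geoQ {S : Type u} [Field S] [IsAlgClosed S] [CharZero S] {κ E K0 : Subfield S}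
    (hκ : ∀ y : S, IsAlgebraic κ y → y ∈ κ) {T q : S} (hT : Transcendental κ T)
    (hq : TH.SplitAt κ T q) (hE : E = Subfield.closure ((κ : Set S) ∪ {T, q}))
    {N t : ℕ} (ht : t ≤ N) {ds : Fin t → ℕ} {s₀ : Fin t} (hs₀ : ds s₀ = 2) {m : ℕ}
    {x : IxV (N + 2) 2 ds × Fin (m + 2) → S} (hx : AlgebraicIndependent E x)
    (hK0 : K0 = Subfield.closure ((E : Set S) ∪ Set.range x))
    {w : Fin (m + 2) → S} (hw : ∀ e, w e ∈ E) (hw0 : w 0 = 1) (hw1 : w 1 = T)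
    {U : Type} [Fintype U] {e : U → ℕ} {h : ∀ u, MonV (N + 2) (e u) → E} {c : ℕ} (hc : 1 ≤ c)
    (hcert : CertV ht h c) :
    GeoQ κ K0 T x w (fun u q => (h u q : S)) :=
  geoQ_of_geo1Q (fun _ _ _ _ _ _ _ φE hφc _ hφT _ _ _ ht _ _ hs₀ _ _ _ _ hw0 hw1 _ _ hc hcert =>
    geo1Q φE hφc hφT ht hs₀ hw0 hw1 hc hcert) hκ hT hq hE ht hs₀ hx hK0 hw hw0 hw1 hc hcert

end Pool.Agent.TQ
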